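import Mathlib
import Pool.Agent.V11298.LimitOrbit

/-!
For `A = 99/100` and `α = 1/2` every nonnegative solution of
`x_{n+1} = (α + x_{n-2}) / (A + x_n)` converges to the equilibrium.
-/

namespace Pool.Agent.Results.MP_efe010_an.AllConverge

open Filter Topology

/-- A nonnegative solution of the recurrence, indexed from `0`. -/
def IsSol (A α : ℝ) (x : ℕ → ℝ) : Prop :=
  (∀ n, 0 ≤ x n) ∧ ∀ n, x (n + 3) = (α + x n) / (A + x (n + 2))

/-- The equilibrium of the problem file. -/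
noncomputable def equilibrium (A α : ℝ) : ℝ := (1 - A + √((1 - A) ^ 2 + 4 * α)) / 2

/-- The upper end of the parameter range of the problem file. -/
noncomputable def alphaPlus (A : ℝ) : ℝ := (2 - A + √(5 * A ^ 2 - 4 * A ^ 3)) / 2

lemma rec_mul {x : ℕ → ℝ} (hx : IsSol (99 / 100) (1 / 2) x) (n : ℕ) :
    x (n + 3) * (99 / 100 + x (n + 2)) = 1 / 2 + x n := by
  rw [hx.2 n]
  have := hx.1 (n + 2)
  exact div_mul_cancel₀ _ (by positivity)

lemma bounded {x : ℕ → ℝ} (hx : IsSol (99 / 100) (1 / 2) x) : ∃ C, ∀ n, x n ≤ C := by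
  refine ⟨x 0 + x 1 + x 2 + x 3 + x 4 + 25, fun n => ?_⟩
  set C := x 0 + x 1 + x 2 + x 3 + x 4 + 25 with hC
  have hC25 : 25 ≤ C := by linarith [hx.1 0, hx.1 1, hx.1 2, hx.1 3, hx.1 4]
  induction n using Nat.strong_induction_on with
  | _ n ih =>
    rcases lt_or_ge n 5 with hn | hn
    · have : n = 0 ∨ n = 1 ∨ n = 2 ∨ n = 3 ∨ n = 4 := by omega
      rcases this with rfl | rfl | rfl | rfl | rfl <;>
        linarith [hx.1 0, hx.1 1, hx.1 2, hx.1 3, hx.1 4]
    · obtain ⟨m, rfl⟩ : ∃ m, n = m + 5 := ⟨n - 5, by omega⟩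
      have e1 := rec_mul hx (m + 2)
      have e2 := rec_mul hx (m + 1)
      have e3 := rec_mul hx m
      rw [show m + 2 + 3 = m + 5 by ring, show m + 2 + 2 = m + 4 by ring] at e1
      rw [show m + 1 + 3 = m + 4 by ring, show m + 1 + 2 = m + 3 by ring] at e2
      have i0 := ih m (by omega)
      have i2 := ih (m + 2) (by omega)
      have p0 := hx.1 m
      have p1 := hx.1 (m + 1)
      have p2 := hx.1 (m + 2)
      have p3 := hx.1 (m + 3)
      have p4 := hx.1 (m + 4)
      have p5 := hx.1 (m + 5)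
      by_contra hcon
      push Not at hcon
      -- `x (m+2)` is large
      have h2 : C / 2 < x (m + 2) := by
        by_contra h
        push Not at h
        nlinarith [mul_nonneg p5 p4]
      -- `x (m+4)` is small
      have h4 : x (m + 4) < 1 / 20 := by
        by_contra h
        push Not at h
        have : C * (99 / 100 + 1 / 20) < x (m + 5) * (99 / 100 + x (m + 4)) := by
          have : C * (99 / 100 + 1 / 20) < x (m + 5) * (99 / 100 + 1 / 20) := by linarith
          nlinarith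
        nlinarith
      -- `x (m+3)` is large
      have h3 : 9 < x (m + 3) := by
        by_contra h
        push Not at h
        nlinarith
      nlinarith

/-- The algebraic heart: the superior and the inferior limit agree. -/
lemma algebra {M m L1 L2 L3 L4 L5 K1 K3 : ℝ} (hm : 0 ≤ m)
    (b1 : m ≤ L1) (b1' : L1 ≤ M) (b2' : L2 ≤ M) (_b3 : m ≤ L3) (b3' : L3 ≤ M)
    (b4 : m ≤ L4) (b5' : L5 ≤ M) (c1 : K1 ≤ M) (c3 : m ≤ K3) (b2 : m ≤ L2)
    (E1 : M * (99 / 100 + L1) = 1 / 2 + L3) (E2 : L1 * (99 / 100 + L2) = 1 / 2 + L4)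
    (E3 : L2 * (99 / 100 + L3) = 1 / 2 + L5) (F1 : m * (99 / 100 + K1) = 1 / 2 + K3) :
    M = m := by
  by_contra hne
  have hmM : m ≤ M := b1.trans b1'
  have hd : 0 < M - m := lt_of_le_of_ne (by linarith) (fun h => hne (by linarith))
  have hM0 : 0 < M := by linarith
  -- lower bound on the product
  have g1 : 1 / 2 + 1 / 100 * m ≤ M * m := by nlinarith
  -- upper bound on the product
  have g2 : M * m ≤ 1 / 2 + 1 / 100 * M := by nlinarith
  -- deficits
  have g3 : M * (L1 - m) + (M - L3) ≤ 1 / 100 * (M - m) := by nlinarith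
  have g4 : M - L3 ≤ 1 / 100 * (M - m) := by nlinarith [mul_nonneg hM0.le (sub_nonneg.2 b1)]
  have g5 : M * (L1 - m) ≤ 1 / 100 * (M - m) := by linarith
  have g6 : L1 - m ≤ 1 / 100 := by
    by_contra h
    push Not at h
    nlinarith
  have hL2 : 0 ≤ L2 := hm.trans b2
  have g7 : L2 ≤ 100 / 99 := by
    by_contra h
    push Not at h
    have : 99 / 100 * (1 + M) ≤ 99 / 100 + L3 := by linarith
    have : L2 * (99 / 100 * (1 + M)) ≤ 1 / 2 + M := by nlinarith
    nlinarith
  have hL1 : 0 ≤ L1 := hm.trans b1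
  have g8 : 24 / 100 ≤ L1 := by
    by_contra h
    push Not at h
    nlinarith
  have g9 : 23 / 100 ≤ m := by linarith
  have g10 : M ≤ 23 / 10 := by nlinarith
  have g11 : 7 / 10 ≤ M := by
    by_contra h
    push Not at h
    nlinarith
  -- lower bound for `L2`
  have k1 : m * (M - L2) ≤ (L1 - m) * (99 / 100 + M) + 1 / 100 * (M - m) := by
    have h1 : m * (M + 99 / 100) - 1 / 100 * (M - m) ≤ L1 * (99 / 100 + L2) := by
      linarith only [E2, b4, g2]
    have h2 : (L1 - m) * L2 ≤ (L1 - m) * M := mul_le_mul_of_nonneg_left b2' (sub_nonneg.2 b1)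
    linarith only [h1, h2]
  have k2 : M * (m * (M - L2)) ≤ 1 / 100 * (M - m) * (99 / 100 + 2 * M) := by
    have h1 : M * (m * (M - L2)) ≤ M * ((L1 - m) * (99 / 100 + M) + 1 / 100 * (M - m)) :=
      mul_le_mul_of_nonneg_left k1 hM0.le
    have h2 : M * (L1 - m) * (99 / 100 + M) ≤ 1 / 100 * (M - m) * (99 / 100 + M) :=
      mul_le_mul_of_nonneg_right g5 (by linarith)
    linarith only [h1, h2]
  -- upper bound for `L2`
  have k3 : M * (M - m) - 1 / 100 * (M - m) * (1 + M) ≤ (M - L2) * (99 / 100 + M) := by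
    have h1 : L2 * (99 / 100 + M) ≤ 1 / 2 + M + L2 * (M - L3) := by linarith only [E3, b5']
    have h2 : L2 * (M - L3) ≤ M * (1 / 100 * (M - m)) := by
      have h3 : L2 * (M - L3) ≤ M * (M - L3) := mul_le_mul_of_nonneg_right b2' (by linarith)
      have h4 : M * (M - L3) ≤ M * (1 / 100 * (M - m)) := mul_le_mul_of_nonneg_left g4 hM0.le
      linarith only [h3, h4]
    linarith only [h1, h2, g1]
  -- combination
  have k4 : M * m * (M * (M - m) - 1 / 100 * (M - m) * (1 + M)) ≤
      1 / 100 * (M - m) * (99 / 100 + 2 * M) * (99 / 100 + M) := by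
    have hMm : 0 ≤ M * m := by positivity
    have h1 : M * m * (M * (M - m) - 1 / 100 * (M - m) * (1 + M)) ≤
        M * m * ((M - L2) * (99 / 100 + M)) := mul_le_mul_of_nonneg_left k3 hMm
    have h2 : M * (m * (M - L2)) * (99 / 100 + M) ≤
        1 / 100 * (M - m) * (99 / 100 + 2 * M) * (99 / 100 + M) :=
      mul_le_mul_of_nonneg_right k2 (by linarith)
    have h3 : M * m * ((M - L2) * (99 / 100 + M)) = M * (m * (M - L2)) * (99 / 100 + M) := by
      ring
    rw [h3] at h1
    exact h1.trans h2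
  have k5 : M * m * (M - 1 / 100 * (1 + M)) ≤ 1 / 100 * (99 / 100 + 2 * M) * (99 / 100 + M) := by
    by_contra h
    push Not at h
    have := mul_lt_mul_of_pos_left h hd
    linarith only [this, k4]
  have k6 : 1 / 2 * (M - 1 / 100 * (1 + M)) ≤ M * m * (M - 1 / 100 * (1 + M)) := by
    apply mul_le_mul_of_nonneg_right _ (by linarith)
    linarith
  nlinarith [mul_nonneg (sub_nonneg.2 g11) (sub_nonneg.2 g10)]

/-- For `A = 99/100` and `α = 1/2 < α_+(A)` every solution converges to the equilibrium. -/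
theorem result : (0 : ℝ) < 99 / 100 ∧ (99 / 100 : ℝ) < 1 ∧ (0 : ℝ) < 1 / 2 ∧
    (1 / 2 : ℝ) < alphaPlus (99 / 100) ∧
    ∀ x : ℕ → ℝ, IsSol (99 / 100) (1 / 2) x →
      Tendsto x atTop (𝓝 (equilibrium (99 / 100) (1 / 2))) := by
  refine ⟨by norm_num, by norm_num, by norm_num, ?_, ?_⟩
  · unfold alphaPlus
    have := Real.sqrt_nonneg (5 * (99 / 100 : ℝ) ^ 2 - 4 * (99 / 100) ^ 3)
    linarith
  intro x hx
  obtain ⟨C, hC⟩ := bounded hx
  obtain ⟨M, U, L, hU, hL, hL0, hε⟩ := V11298.exists_limit_orbit_sup hx.1 hC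
  obtain ⟨m, V, K, hV, hK, hK0, hδ⟩ := V11298.exists_limit_orbit_inf hx.1 hC
  have hrec : ∀ (W : Ultrafilter ℕ) (J : ℕ → ℝ), (W : Filter ℕ) ≤ atTop →
      (∀ m, Tendsto (fun n => x (n - m)) W (𝓝 (J m))) →
      ∀ j, J j * (99 / 100 + J (j + 1)) = 1 / 2 + J (j + 3) := by
    intro W J hW hJ j
    have h1 : Tendsto (fun n => x (n - j) * (99 / 100 + x (n - (j + 1)))) W
        (𝓝 (J j * (99 / 100 + J (j + 1)))) :=
      (hJ j).mul (tendsto_const_nhds.add (hJ (j + 1)))
    have h2 : Tendsto (fun n => 1 / 2 + x (n - (j + 3))) W (𝓝 (1 / 2 + J (j + 3))) :=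
      tendsto_const_nhds.add (hJ (j + 3))
    refine tendsto_nhds_unique_of_eventuallyEq h1 h2 (hW ?_)
    filter_upwards [eventually_ge_atTop (j + 3)] with n hn
    obtain ⟨r, rfl⟩ : ∃ r, n = r + (j + 3) := ⟨n - (j + 3), by omega⟩
    have e := rec_mul hx r
    rw [show r + (j + 3) - j = r + 3 by omega, show r + (j + 3) - (j + 1) = r + 2 by omega,
      show r + (j + 3) - (j + 3) = r by omega]
    exact e
  have hLM : ∀ j, L j ≤ M := V11298.limit_le hU hL hε
  have hmL : ∀ j, m ≤ L j := V11298.le_limit hU hL hδ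
  have hKM : ∀ j, K j ≤ M := V11298.limit_le hV hK hε
  have hmK : ∀ j, m ≤ K j := V11298.le_limit hV hK hδ
  have hm0 : 0 ≤ m := by
    rw [← hK0]
    exact ge_of_tendsto' (hK 0) fun n => hx.1 _
  have E1 := hrec U L hU hL 0
  have E2 := hrec U L hU hL 1
  have E3 := hrec U L hU hL 2
  have F1 := hrec V K hV hK 0
  rw [hL0] at E1
  rw [hK0] at F1
  have hMm : M = m := algebra hm0 (hmL 1) (hLM 1) (hLM 2) (hmL 3) (hLM 3) (hmL 4) (hLM 5)
    (hKM 1) (hmK 3) (hmL 2) E1 E2 E3 F1
  -- the limit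
  have hlim : Tendsto x atTop (𝓝 M) := by
    rw [Metric.tendsto_atTop]
    intro ε hε'
    obtain ⟨N, hN⟩ := eventually_atTop.1 ((hε ε hε').and (hδ ε hε'))
    refine ⟨N, fun n hn => ?_⟩
    have := hN n hn
    rw [Real.dist_eq, abs_lt]
    constructor <;> linarith [this.1, this.2]
  have hfix : M * (99 / 100 + M) = 1 / 2 + M := by
    have l1 : L 1 = M := le_antisymm (hLM 1) (hMm ▸ hmL 1)
    have l3 : L 3 = M := le_antisymm (hLM 3) (hMm ▸ hmL 3)
    simp only [zero_add] at E1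
    rw [l1, l3] at E1
    exact E1
  have hM0 : 0 ≤ M := hMm ▸ hm0
  have hMpos : 1 / 100 < 2 * M := by
    by_contra h
    push Not at h
    nlinarith
  have heq : M = equilibrium (99 / 100) (1 / 2) := by
    unfold equilibrium
    have h1 : (1 - (99 / 100 : ℝ)) ^ 2 + 4 * (1 / 2) = (2 * M - 1 / 100) ^ 2 := by
      nlinarith
    rw [h1, Real.sqrt_sq (by linarith)]
    ring
  rw [← heq]
  exact hlim

end Pool.Agent.Results.MP_efe010_an.AllConverge
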